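import Pool.Agent.Work.MP_2df8e9_al.Env.Inf

/-!
For odd `n` the universal associative envelope of the simple `(n+1)`-dimensional `n`-Lie algebra
is infinite-dimensional.  The envelope is the tensor algebra of `V` modulo the relations that
make the bracket of `V` the alternating sum of products.
-/

namespace Pool.Agent.Results.MP_2df8e9_al.InfiniteEnvelope

universe u v

theorem result (F : Type u) [Field F] [IsAlgClosed F] [CharZero F] (n : ℕ) (hn : 3 ≤ n)
    (hodd : Odd n) (V : Type v) [AddCommGroup V] [Module F V]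
    (e : Module.Basis (Fin (n + 1)) F V) (br : V [⋀^Fin n]→ₗ[F] V)
    (hbr : ∀ i : Fin (n + 1),
      br (fun k => e (i.succAbove k)) = (-1 : F) ^ (n + ((i : ℕ) + 1) + 1) • e i)
    (r : TensorAlgebra F V → TensorAlgebra F V → Prop)
    (hr : ∀ a b, r a b ↔ ∃ v : Fin n → V, a = TensorAlgebra.ι F (br v) ∧
      b = ∑ σ : Equiv.Perm (Fin n),
        Equiv.Perm.sign σ • (List.ofFn fun k => TensorAlgebra.ι F (v (σ k))).prod) :
    ¬ Module.Finite F (RingQuot r) := by
  intro hfin
  obtain ⟨A, _, _, j, h1, x, h2⟩ :=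
    Pool.Agent.Work.MP_2df8e9_al.Env.transcendental F n hn hodd V e br hbr
  have hj : ∀ ⦃a b⦄, r a b → TensorAlgebra.lift F j a = TensorAlgebra.lift F j b := by
    intro a b hab
    obtain ⟨v, rfl, rfl⟩ := (hr a b).1 hab
    rw [TensorAlgebra.lift_ι_apply, h1, Pool.Agent.Work.MP_2df8e9_al.stdAlt_apply, map_sum]
    refine Finset.sum_congr rfl fun σ _ => ?_
    rw [Units.smul_def, Units.smul_def, map_zsmul, map_list_prod, List.map_ofFn]
    congr 3
    funext k
    simp
  let ψ : RingQuot r →ₐ[F] A := RingQuot.liftAlgHom F ⟨TensorAlgebra.lift F j, hj⟩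
  have h3 : ψ (RingQuot.mkAlgHom F r (TensorAlgebra.ι F x)) = j x := by
    simp [ψ, RingQuot.liftAlgHom_mkAlgHom_apply]
  apply h2
  rw [← h3, ← map_mul]
  exact (IsIntegral.of_finite F _).map ψ

end Pool.Agent.Results.MP_2df8e9_al.InfiniteEnvelope
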