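import Pool.Agent.Work.MP_2df8e9_al.Main
import Pool.Agent.Work.MP_2df8e9_al.Exists

/-!
Pozhidaev's conjecture for odd `n`: the simple `(n+1)`-dimensional `n`-Lie algebra embeds in
the alternating `n`-ary algebra of an associative algebra (a full matrix algebra over `F`).

The algebra `L_{n+1}` is given by a space `V` with basis `e` indexed by `Fin (n+1)` (index `i`
stands for `i+1`) and an alternating `n`-linear bracket `br` obeying the defining relations;
`i.succAbove` lists the indices other than `i` in increasing order.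
-/

namespace Pool.Agent.Results.MP_2df8e9_al.OddEmbedding

universe u v

/-- The defining relations are consistent: such a bracket exists for every basis. -/
theorem bracket_exists (F : Type u) [Field F] (n : ℕ) (V : Type v) [AddCommGroup V] [Module F V]
    (e : Module.Basis (Fin (n + 1)) F V) :
    ∃ br : V [⋀^Fin n]→ₗ[F] V, ∀ i : Fin (n + 1),
      br (fun k => e (i.succAbove k)) = (-1 : F) ^ (n + ((i : ℕ) + 1) + 1) • e i :=
  Pool.Agent.Work.MP_2df8e9_al.exists_bracket F n V e

theorem result (F : Type u) [Field F] [IsAlgClosed F] [CharZero F] (n : ℕ) (hn : 3 ≤ n)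
    (hodd : Odd n) (V : Type v) [AddCommGroup V] [Module F V]
    (e : Module.Basis (Fin (n + 1)) F V) (br : V [⋀^Fin n]→ₗ[F] V)
    (hbr : ∀ i : Fin (n + 1),
      br (fun k => e (i.succAbove k)) = (-1 : F) ^ (n + ((i : ℕ) + 1) + 1) • e i) :
    ∃ (N : ℕ) (j : V →ₗ[F] Matrix (Fin N) (Fin N) F), Function.Injective j ∧
      ∀ v : Fin n → V, j (br v) =
        ∑ σ : Equiv.Perm (Fin n),
          Equiv.Perm.sign σ • (List.ofFn fun k => j (v (σ k))).prod :=
  Pool.Agent.Work.MP_2df8e9_al.embedding F n hn hodd V e br hbr

end Pool.Agent.Results.MP_2df8e9_al.OddEmbedding
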